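import Pool.Agent.Helper49.KR.St

/-!
# Project KR (MP_c973ff_an), module AVG: two lower semicontinuous functions
-/

set_option autoImplicit false

namespace Pool.Agent.Helper60.KR

open Pool.Agent.Helper49.KX Pool.Agent.Helper49.KR

namespace AVG

/-- Lipschitz regularisation from below -/
noncomputable def psi (ρ : ℝ → ℕ) (k : ℕ) (s : ℝ) : ℝ := ⨅ t : ℝ, ((ρ t : ℝ) + k * |s - t|)

theorem bdd (ρ : ℝ → ℕ) (k : ℕ) (s : ℝ) :
    BddBelow (Set.range fun t : ℝ => ((ρ t : ℝ) + k * |s - t|)) := by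
  refine ⟨0, ?_⟩
  rintro _ ⟨t, rfl⟩
  positivity

theorem psi_le (ρ : ℝ → ℕ) (k : ℕ) (s t : ℝ) : psi ρ k s ≤ (ρ t : ℝ) + k * |s - t| :=
  ciInf_le (bdd ρ k s) t

theorem psi_le_self (ρ : ℝ → ℕ) (k : ℕ) (s : ℝ) : psi ρ k s ≤ (ρ s : ℝ) := by
  have h := psi_le ρ k s s
  simpa using h

theorem le_psi {ρ : ℝ → ℕ} {k : ℕ} {s c : ℝ} (h : ∀ t, c ≤ (ρ t : ℝ) + k * |s - t|) :
    c ≤ psi ρ k s := le_ciInf h

theorem psi_lip (ρ : ℝ → ℕ) (k : ℕ) (s s' : ℝ) : psi ρ k s ≤ psi ρ k s' + k * |s - s'| := by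
  have h : psi ρ k s - k * |s - s'| ≤ psi ρ k s' := by
    apply le_psi
    intro t
    have h1 := psi_le ρ k s t
    have h2 : |s - t| ≤ |s - s'| + |s' - t| := abs_sub_le s s' t
    have h3 : (k : ℝ) * |s - t| ≤ k * (|s - s'| + |s' - t|) :=
      mul_le_mul_of_nonneg_left h2 (Nat.cast_nonneg k)
    linarith
  linarith

theorem psi_cont (ρ : ℝ → ℕ) (k : ℕ) : Continuous (psi ρ k) := by
  have h : LipschitzWith (k : NNReal) (psi ρ k) := by
    apply LipschitzWith.of_le_add_mul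
    intro x y
    have := psi_lip ρ k x y
    rw [Real.dist_eq]
    exact this
  exact h.continuous

theorem psi_per {ρ : ℝ → ℕ} (hρ : ∀ s, ρ (s + 1) = ρ s) (k : ℕ) (s : ℝ) :
    psi ρ k (s + 1) = psi ρ k s := by
  apply le_antisymm
  · apply le_psi
    intro t
    have h := psi_le ρ k (s + 1) (t + 1)
    rw [hρ] at h
    have e : s + 1 - (t + 1) = s - t := by ring
    rwa [e] at h
  · apply le_psi
    intro t
    have h := psi_le ρ k s (t - 1)
    have h1 := hρ (t - 1)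
    rw [sub_add_cancel] at h1
    rw [← h1] at h
    have e : s - (t - 1) = s + 1 - t := by ring
    rwa [e] at h

theorem psi_mono (ρ : ℝ → ℕ) {k k' : ℕ} (h : k ≤ k') (s : ℝ) : psi ρ k s ≤ psi ρ k' s := by
  apply le_psi
  intro t
  have h1 := psi_le ρ k s t
  have h2 : (k : ℝ) * |s - t| ≤ k' * |s - t| :=
    mul_le_mul_of_nonneg_right (by exact_mod_cast h) (abs_nonneg _)
  linarith

theorem psi_att {ρ : ℝ → ℕ} (ho : ∀ k, IsOpen {s | k ≤ ρ s}) (s : ℝ) :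
    ∃ K : ℕ, (ρ s : ℝ) ≤ psi ρ K s := by
  have h1 : s ∈ {t | ρ s ≤ ρ t} := le_refl (ρ s)
  obtain ⟨η, hη, hb⟩ := Metric.isOpen_iff.1 (ho (ρ s)) s h1
  obtain ⟨K, hK⟩ := exists_nat_ge ((ρ s : ℝ) / η)
  refine ⟨K, le_psi fun t => ?_⟩
  by_cases ht : |s - t| < η
  · have h2 : t ∈ Metric.ball s η := by
      rw [Metric.mem_ball, Real.dist_eq, abs_sub_comm]
      exact ht
    have h3 : ρ s ≤ ρ t := hb h2
    have h4 : (ρ s : ℝ) ≤ (ρ t : ℝ) := by exact_mod_cast h3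
    have h5 : 0 ≤ (K : ℝ) * |s - t| := by positivity
    linarith
  · have ht' : η ≤ |s - t| := not_lt.1 ht
    have h2 : (ρ s : ℝ) ≤ K * η := by
      rwa [div_le_iff₀ hη] at hK
    have h3 : (K : ℝ) * η ≤ K * |s - t| := mul_le_mul_of_nonneg_left ht' (Nat.cast_nonneg K)
    have h4 : (0 : ℝ) ≤ (ρ t : ℝ) := Nat.cast_nonneg _
    linarith

end AVG

open AVG in
theorem hAVG : StAvg := by
  intro hE α hα ρ1 ρ2 L o1 o2 p1 p2 hL ε hε
  -- uniform choice of k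
  obtain ⟨k, hk⟩ : ∃ k : ℕ, ∀ s : ℝ, (L : ℝ) - ε / 2 < psi ρ1 k s + psi ρ2 k s := by
    have hc := (isCompact_Icc (a := (0 : ℝ)) (b := 1)).elim_directed_cover
      (fun k : ℕ => {s : ℝ | (L : ℝ) - ε / 2 < psi ρ1 k s + psi ρ2 k s})
      (fun k => isOpen_lt continuous_const ((psi_cont ρ1 k).add (psi_cont ρ2 k)))
      (by
        intro s _
        obtain ⟨K1, h1⟩ := psi_att o1 s
        obtain ⟨K2, h2⟩ := psi_att o2 s
        rw [Set.mem_iUnion]
        refine ⟨max K1 K2, ?_⟩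
        have h3 := psi_mono ρ1 (le_max_left K1 K2) s
        have h4 := psi_mono ρ2 (le_max_right K1 K2) s
        have h5 : (L : ℝ) ≤ (ρ1 s : ℝ) + (ρ2 s : ℝ) := by exact_mod_cast hL s
        rw [Set.mem_ofPred_eq]
        linarith)
      (directed_of_isDirected_le (fun a b hab s hs => by
        rw [Set.mem_ofPred_eq] at hs ⊢
        have h3 := psi_mono ρ1 hab s
        have h4 := psi_mono ρ2 hab s
        linarith))
    obtain ⟨k, hk⟩ := hc
    refine ⟨k, fun s => ?_⟩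
    have h1 : Int.fract s ∈ Set.Icc (0 : ℝ) 1 := ⟨Int.fract_nonneg s, (Int.fract_lt_one s).le⟩
    have h2 := hk h1
    rw [Set.mem_ofPred_eq] at h2
    have q1 : Function.Periodic (psi ρ1 k) 1 := fun s => psi_per p1 k s
    have q2 : Function.Periodic (psi ρ2 k) 1 := fun s => psi_per p2 k s
    have e : Int.fract s = s - (⌊s⌋ : ℝ) * 1 := by
      rw [mul_one]
      rfl
    rw [e, q1.sub_int_mul_eq, q2.sub_int_mul_eq] at h2
    exact h2
  obtain ⟨n0, hn0⟩ := hE α hα (psi ρ1 k) (psi_cont ρ1 k) (psi_per p1 k) (ε / 2) (by linarith)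
  refine ⟨n0, fun n hn s s' => ?_⟩
  have h1 := hn0 n hn s' s
  have h2 : ∑ l ∈ Finset.range n, psi ρ1 k (s + (l : ℝ) * α) ≤
      ((∑ l ∈ Finset.range n, ρ1 (s + (l : ℝ) * α) : ℕ) : ℝ) := by
    rw [Nat.cast_sum]
    exact Finset.sum_le_sum fun l _ => psi_le_self ρ1 k _
  have h3 : ∑ l ∈ Finset.range n, psi ρ2 k (s' + (l : ℝ) * α) ≤
      ((∑ l ∈ Finset.range n, ρ2 (s' + (l : ℝ) * α) : ℕ) : ℝ) := by
    rw [Nat.cast_sum]
    exact Finset.sum_le_sum fun l _ => psi_le_self ρ2 k _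
  have h4 : ((L : ℝ) - ε / 2) * n ≤ ∑ l ∈ Finset.range n, psi ρ1 k (s' + (l : ℝ) * α) +
      ∑ l ∈ Finset.range n, psi ρ2 k (s' + (l : ℝ) * α) := by
    rw [← Finset.sum_add_distrib]
    have : ∑ l ∈ Finset.range n, ((L : ℝ) - ε / 2) ≤ ∑ l ∈ Finset.range n,
        (psi ρ1 k (s' + (l : ℝ) * α) + psi ρ2 k (s' + (l : ℝ) * α)) :=
      Finset.sum_le_sum fun l _ => (hk _).le
    rw [Finset.sum_const, Finset.card_range, nsmul_eq_mul] at this
    linarith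
  have h5 : ((L : ℝ) - ε) * n = ((L : ℝ) - ε / 2) * n - ε / 2 * n := by ring
  linarith

end Pool.Agent.Helper60.KR
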